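import Pool.Agent.J4H64.MP.Def

set_option autoImplicit false

/-! Project MP, piece QDEV: circuits and formulas as devices. -/

namespace Pool.Agent.J4H72.MP

open Finset Filter Pool.Agent.H560R2 Pool.Agent.H520R2 Pool.Agent.J4H64.MC Pool.Agent.J4H64.MN
open Pool.Agent.J4H64.MO Pool.Agent.J4H64.MP

theorem form_size_pos {I : Type} (F : Form I) : 1 ≤ F.size := by
  cases F <;> simp [Form.size]

theorem form_nonempty {I : Type} (F : Form I) : Nonempty I := by
  induction F with
  | inp i => exact ⟨i⟩
  | and F G h _ => exact h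
  | or F G h _ => exact h
  | not F h => exact h

theorem arith (m i : ℕ) (hi : 1 ≤ i) : 7 * m + 1 ≤ (m + 1) * (m + i + 2) := by
  have h1 : (m + 1) * (m + 3) ≤ (m + 1) * (m + i + 2) := Nat.mul_le_mul_left _ (by omega)
  refine le_trans ?_ h1
  rcases Nat.lt_or_ge m 2 with h | h
  · interval_cases m <;> norm_num
  · obtain ⟨j, rfl⟩ : ∃ j, m = j + 2 := ⟨m - 2, by omega⟩
    nlinarith [Nat.zero_le (j * j)]

theorem t_QDEV : S_QDEV := by
  classical
  intro hP hN hD k hk μ ν n e c B hμ he hc hB h1 h2 h3
  obtain ⟨Λ, i1, i2, D, h⟩ := hP k μ ν n e c B hk hμ he hc hB h1 h2 h3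
  refine ⟨Λ, i1, i2, D, ?_⟩
  intro C hC hs
  rcases C with C | F
  · obtain ⟨n', C', out, ho, hz, hf⟩ := hN (Clause n k) C B hC
    have hs' : 4 * c * (C'.size + C'.fanins.sum + 1) ≤ 4 ^ e :=
      le_trans (Nat.mul_le_mul_left _ (Nat.succ_le_succ hz)) hs
    have hr := h n' C' out hs' hf
    have key : ∀ l, ((dev k).acc (Sum.inl C) (D l) ↔ Sat (D l)) ↔
        (¬ out.eval (D l) (C'.vals (D l)) = true ↔ Sat (D l)) := by
      intro l
      have h5 : (¬ out.eval (D l) (C'.vals (D l)) = true) ↔ C.Acc (D l) := by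
        rw [ho (D l), not_not]
      rw [h5]
      rfl
    have hcard : (univ.filter (fun l => ((dev k).acc (Sum.inl C) (D l) ↔ Sat (D l)))).card =
        (univ.filter (fun l => (¬ out.eval (D l) (C'.vals (D l)) = true ↔ Sat (D l)))).card := by
      congr 1
      ext l
      simp only [Finset.mem_filter, Finset.mem_univ, true_and]
      exact key l
    convert hr using 1
    convert congrArg (fun t => 2 * c * t) hcard using 1
  · obtain ⟨n', C', out, ho, hz, hf⟩ := hD (Clause n k) F
    have hi : 1 ≤ Fintype.card (Clause n k) := by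
      have := form_nonempty F
      exact Fintype.card_pos
    have hs' : 4 * c * (C'.size + C'.fanins.sum + 1) ≤ 4 ^ e :=
      le_trans (Nat.mul_le_mul_left _ (Nat.succ_le_succ (le_trans hz (arith F.size _ hi)))) hs
    have hr := h n' C' out hs' (le_trans hf hC)
    have key : ∀ l, ((dev k).acc (Sum.inr F) (D l) ↔ Sat (D l)) ↔
        (¬ out.eval (D l) (C'.vals (D l)) = true ↔ Sat (D l)) := by
      intro l
      have h5 : (¬ out.eval (D l) (C'.vals (D l)) = true) ↔ F.eval (D l) = true := by
        rw [ho (D l)]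
        cases F.eval (D l) <;> simp
      rw [h5]
      rfl
    have hcard : (univ.filter (fun l => ((dev k).acc (Sum.inr F) (D l) ↔ Sat (D l)))).card =
        (univ.filter (fun l => (¬ out.eval (D l) (C'.vals (D l)) = true ↔ Sat (D l)))).card := by
      congr 1
      ext l
      simp only [Finset.mem_filter, Finset.mem_univ, true_and]
      exact key l
    convert hr using 1
    convert congrArg (fun t => 2 * c * t) hcard using 1

end Pool.Agent.J4H72.MP
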