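import Pool.Agent.J4H64.MP.Def

set_option autoImplicit false

/-! Project MP, piece DEC: a formula with `b` NOT gates is a function of at most `5 b + 1` monotone
functions. -/

namespace Pool.Agent.J4H72.MP.DecP

open Finset Pool.Agent.H520R2 Pool.Agent.H520R2.NM Pool.Agent.J4H64.MP

variable {I : Type}

/-- the wires of the longer circuit -/
def up {n : ℕ} (u : ℕ) : Wire I n → Wire I (n + u)
  | .input i => .input i
  | .const b => .const b
  | .gate j => .gate (Fin.castAdd u j)

theorem up_snoc {n : ℕ} (x : I → Bool) (v : Fin n → Bool) (b : Bool) (a : Wire I n) :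
    (up 1 a).eval x (Fin.snoc (α := fun _ => Bool) v b) = a.eval x v := by
  cases a with
  | input i => rfl
  | const b => rfl
  | gate j =>
    change Fin.snoc (α := fun _ => Bool) v b (Fin.castSucc j) = v j
    rw [Fin.snoc_castSucc]

/-- `C'` is `C` and `s` more binary gates -/
def Ext {n n' : ℕ} (C : Circuit I n) (C' : Circuit I n') (f : Wire I n → Wire I n') (s : ℕ) :
    Prop :=
  (∀ x a, (f a).eval x (C'.vals x) = a.eval x (C.vals x)) ∧ C'.size = C.size + s ∧
    C'.fanins = C.fanins

theorem ext_trans {n n' n'' : ℕ} {C : Circuit I n} {C' : Circuit I n'} {C'' : Circuit I n''}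
    {f : Wire I n → Wire I n'} {g : Wire I n' → Wire I n''} {s t : ℕ} (h : Ext C C' f s)
    (h' : Ext C' C'' g t) : Ext C C'' (fun a => g (f a)) (s + t) := by
  refine ⟨fun x a => ?_, ?_, ?_⟩
  · rw [h'.1, h.1]
  · rw [h'.2.1, h.2.1]
    ring
  · rw [h'.2.2, h.2.2]

theorem ext_and {n : ℕ} (C : Circuit I n) (a b : Wire I n) :
    Ext C (C.and a b) (up 1) 1 ∧
      ∀ x, (Wire.gate (Fin.last n) : Wire I (n + 1)).eval x ((C.and a b).vals x) =
        (a.eval x (C.vals x) && b.eval x (C.vals x)) := by
  refine ⟨⟨fun x c => ?_, rfl, rfl⟩, fun x => ?_⟩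
  · rw [Circuit.vals, up_snoc]
  · rw [Circuit.vals]
    change Fin.snoc (α := fun _ => Bool) _ _ (Fin.last n) = _
    rw [Fin.snoc_last]

theorem ext_or {n : ℕ} (C : Circuit I n) (a b : Wire I n) :
    Ext C (C.or a b) (up 1) 1 ∧
      ∀ x, (Wire.gate (Fin.last n) : Wire I (n + 1)).eval x ((C.or a b).vals x) =
        (a.eval x (C.vals x) || b.eval x (C.vals x)) := by
  refine ⟨⟨fun x c => ?_, rfl, rfl⟩, fun x => ?_⟩
  · rw [Circuit.vals, up_snoc]
  · rw [Circuit.vals]
    change Fin.snoc (α := fun _ => Bool) _ _ (Fin.last n) = _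
    rw [Fin.snoc_last]

/-- the formula `F` is represented in the circuit `D` -/
def Rep {n : ℕ} (F : Form I) (D : Circuit I n) : Prop :=
  (F.nots = 0 ∧ ∃ α : Wire I n, ∀ x, F.eval x = α.eval x (D.vals x)) ∨
  (1 ≤ F.nots ∧ ∃ (α β : Wire I n) (gs : List (Wire I n)) (h : List Bool → Bool),
    gs.length + 4 ≤ 5 * F.nots ∧
    ∀ x, F.eval x = (α.eval x (D.vals x) ||
      (β.eval x (D.vals x) && h (gs.map (fun a => a.eval x (D.vals x))))))

theorem rep_ext {n n' : ℕ} {F : Form I} {D : Circuit I n} {D' : Circuit I n'}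
    {f : Wire I n → Wire I n'} {s : ℕ} (h : Rep F D) (he : Ext D D' f s) : Rep F D' := by
  rcases h with ⟨h0, α, h1⟩ | ⟨h0, α, β, gs, h, h1, h2⟩
  · exact Or.inl ⟨h0, f α, fun x => by rw [he.1, h1]⟩
  · refine Or.inr ⟨h0, f α, f β, gs.map f, h, by rwa [List.length_map], fun x => ?_⟩
    rw [he.1, he.1, h2, List.map_map]
    congr 3
    apply List.map_congr_left
    intro a _
    exact (he.1 x a).symm

/-- both sides of a binary gate with negations -/
theorem rep_both {n : ℕ} (F F1 F2 : Form I) (D : Circuit I n) (op : Bool → Bool → Bool)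
    (hF : ∀ x, F.eval x = op (F1.eval x) (F2.eval x)) (hn : F.nots = F1.nots + F2.nots)
    {α1 β1 : Wire I n} {gs1 : List (Wire I n)} {h1 : List Bool → Bool}
    (hl1 : gs1.length + 4 ≤ 5 * F1.nots)
    (he1 : ∀ x, F1.eval x = (α1.eval x (D.vals x) ||
      (β1.eval x (D.vals x) && h1 (gs1.map (fun a => a.eval x (D.vals x))))))
    {α2 β2 : Wire I n} {gs2 : List (Wire I n)} {h2 : List Bool → Bool}
    (hl2 : gs2.length + 4 ≤ 5 * F2.nots)
    (he2 : ∀ x, F2.eval x = (α2.eval x (D.vals x) ||
      (β2.eval x (D.vals x) && h2 (gs2.map (fun a => a.eval x (D.vals x)))))) : Rep F D := by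
  refine Or.inr ⟨by omega, .const false, .const true, α1 :: β1 :: α2 :: β2 :: (gs1 ++ gs2),
    fun l => match l with
      | a1 :: b1 :: a2 :: b2 :: r => op (a1 || (b1 && h1 (r.take gs1.length)))
          (a2 || (b2 && h2 (r.drop gs1.length)))
      | _ => false, ?_, fun x => ?_⟩
  · simp only [List.length_cons, List.length_append]
    omega
  · simp only [List.map_cons, List.map_append]
    rw [List.take_left' (by rw [List.length_map]), List.drop_left' (by rw [List.length_map])]
    rw [hF, he1, he2]
    simp [Wire.eval]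

theorem main (F : Form I) : ∀ (n : ℕ) (D : Circuit I n), ∃ (n' : ℕ) (D' : Circuit I n')
    (f : Wire I n → Wire I n') (s : ℕ), Ext D D' f s ∧ s ≤ 2 * F.size ∧ Rep F D' := by
  induction F with
  | inp i =>
    intro n D
    exact ⟨n, D, id, 0, ⟨fun _ _ => rfl, rfl, rfl⟩, Nat.zero_le _, Or.inl ⟨rfl, .input i,
      fun x => rfl⟩⟩
  | not F ih =>
    intro n D
    obtain ⟨n', D', f, s, he, hs, hr⟩ := ih n D
    refine ⟨n', D', f, s, he, by simp only [Form.size]; omega, ?_⟩
    rcases hr with ⟨h0, α, h1⟩ | ⟨h0, α, β, gs, h, h1, h2⟩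
    · refine Or.inr ⟨by simp only [Form.nots]; omega, .const false, .const true, [α],
        fun l => !(l.headD false), by simp only [Form.nots, List.length_singleton]; omega,
        fun x => ?_⟩
      simp [Form.eval, h1, Wire.eval]
    · refine Or.inr ⟨by simp only [Form.nots]; omega, .const false, .const true, α :: β :: gs,
        fun l => match l with
          | a :: b :: r => !(a || (b && h r))
          | _ => false, by simp only [Form.nots, List.length_cons]; omega, fun x => ?_⟩
      simp only [List.map_cons]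
      rw [Form.eval, h2]
      simp [Wire.eval]
  | and F1 F2 ih1 ih2 =>
    intro n D
    obtain ⟨n1, D1, f1, s1, he1, hs1, hr1⟩ := ih1 n D
    obtain ⟨n2, D2, f2, s2, he2, hs2, hr2⟩ := ih2 n1 D1
    have hr1' := rep_ext hr1 he2
    have he := ext_trans he1 he2
    rcases hr1' with ⟨h0, α, h1⟩ | ⟨h0, α, β, gs, h, h1, h2⟩
    · rcases hr2 with ⟨k0, α', k1⟩ | ⟨k0, α', β', gs', h', k1, k2⟩
      · obtain ⟨e1, e2⟩ := ext_and D2 α α'
        refine ⟨_, _, _, _, ext_trans he e1, by simp only [Form.size]; omega, Or.inl
          ⟨by simp only [Form.nots]; omega, .gate (Fin.last n2), fun x => ?_⟩⟩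
        rw [e2, Form.eval, h1, k1]
      · obtain ⟨e1, e2⟩ := ext_and D2 α α'
        obtain ⟨e3, e4⟩ := ext_and (D2.and α α') (up 1 α) (up 1 β')
        refine ⟨_, _, _, _, ext_trans he (ext_trans e1 e3), by simp only [Form.size]; omega, Or.inr
          ⟨by simp only [Form.nots]; omega, up 1 (.gate (Fin.last n2)), .gate (Fin.last (n2 + 1)),
            gs'.map (fun a => up 1 (up 1 a)), h', by
              rw [List.length_map]
              simp only [Form.nots]
              omega, fun x => ?_⟩⟩
        rw [e4, e3.1, e2, e1.1, e1.1, Form.eval, h1, k2, List.map_map]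
        have e5 : List.map ((fun a => a.eval x (((D2.and α α').and (up 1 α) (up 1 β')).vals x)) ∘
            fun a => up 1 (up 1 a)) gs' = List.map (fun a => a.eval x (D2.vals x)) gs' := by
          apply List.map_congr_left
          intro a _
          exact (e3.1 x _).trans (e1.1 x a)
        rw [e5]
        cases α.eval x (D2.vals x) <;> simp
    · rcases hr2 with ⟨k0, α', k1⟩ | ⟨k0, α', β', gs', h', k1, k2⟩
      · obtain ⟨e1, e2⟩ := ext_and D2 α α'
        obtain ⟨e3, e4⟩ := ext_and (D2.and α α') (up 1 β) (up 1 α')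
        refine ⟨_, _, _, _, ext_trans he (ext_trans e1 e3), by simp only [Form.size]; omega, Or.inr
          ⟨by simp only [Form.nots]; omega, up 1 (.gate (Fin.last n2)), .gate (Fin.last (n2 + 1)),
            gs.map (fun a => up 1 (up 1 a)), h, by
              rw [List.length_map]
              simp only [Form.nots]
              omega, fun x => ?_⟩⟩
        rw [e4, e3.1, e2, e1.1, e1.1, Form.eval, h2, k1, List.map_map]
        have e5 : List.map ((fun a => a.eval x (((D2.and α α').and (up 1 β) (up 1 α')).vals x)) ∘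
            fun a => up 1 (up 1 a)) gs = List.map (fun a => a.eval x (D2.vals x)) gs := by
          apply List.map_congr_left
          intro a _
          exact (e3.1 x _).trans (e1.1 x a)
        rw [e5]
        cases α'.eval x (D2.vals x) <;> simp
      · exact ⟨_, _, _, _, he, by simp only [Form.size]; omega,
          rep_both _ F1 F2 D2 (fun a b => a && b) (fun x => rfl) rfl h1 h2 k1 k2⟩
  | or F1 F2 ih1 ih2 =>
    intro n D
    obtain ⟨n1, D1, f1, s1, he1, hs1, hr1⟩ := ih1 n D
    obtain ⟨n2, D2, f2, s2, he2, hs2, hr2⟩ := ih2 n1 D1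
    have hr1' := rep_ext hr1 he2
    have he := ext_trans he1 he2
    rcases hr1' with ⟨h0, α, h1⟩ | ⟨h0, α, β, gs, h, h1, h2⟩
    · rcases hr2 with ⟨k0, α', k1⟩ | ⟨k0, α', β', gs', h', k1, k2⟩
      · obtain ⟨e1, e2⟩ := ext_or D2 α α'
        refine ⟨_, _, _, _, ext_trans he e1, by simp only [Form.size]; omega, Or.inl
          ⟨by simp only [Form.nots]; omega, .gate (Fin.last n2), fun x => ?_⟩⟩
        rw [e2, Form.eval, h1, k1]
      · obtain ⟨e1, e2⟩ := ext_or D2 α α'
        refine ⟨_, _, _, _, ext_trans he e1, by simp only [Form.size]; omega, Or.inr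
          ⟨by simp only [Form.nots]; omega, .gate (Fin.last n2), up 1 β',
            gs'.map (up 1), h', by
              rw [List.length_map]
              simp only [Form.nots]
              omega, fun x => ?_⟩⟩
        rw [e2, e1.1, Form.eval, h1, k2, List.map_map]
        have e5 : List.map ((fun a => a.eval x ((D2.or α α').vals x)) ∘ up 1) gs' =
            List.map (fun a => a.eval x (D2.vals x)) gs' := by
          apply List.map_congr_left
          intro a _
          exact e1.1 x a
        rw [e5, Bool.or_assoc]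
    · rcases hr2 with ⟨k0, α', k1⟩ | ⟨k0, α', β', gs', h', k1, k2⟩
      · obtain ⟨e1, e2⟩ := ext_or D2 α α'
        refine ⟨_, _, _, _, ext_trans he e1, by simp only [Form.size]; omega, Or.inr
          ⟨by simp only [Form.nots]; omega, .gate (Fin.last n2), up 1 β,
            gs.map (up 1), h, by
              rw [List.length_map]
              simp only [Form.nots]
              omega, fun x => ?_⟩⟩
        rw [e2, e1.1, Form.eval, h2, k1, List.map_map]
        have e5 : List.map ((fun a => a.eval x ((D2.or α α').vals x)) ∘ up 1) gs =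
            List.map (fun a => a.eval x (D2.vals x)) gs := by
          apply List.map_congr_left
          intro a _
          exact e1.1 x a
        rw [e5]
        cases α.eval x (D2.vals x) <;> cases α'.eval x (D2.vals x) <;> simp
      · exact ⟨_, _, _, _, he, by simp only [Form.size]; omega,
          rep_both _ F1 F2 D2 (fun a b => a || b) (fun x => rfl) rfl h1 h2 k1 k2⟩

theorem nots_le (F : Form I) : F.nots ≤ F.size := by
  induction F with
  | inp i => exact Nat.zero_le _
  | not F h => simp only [Form.nots, Form.size]; omega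
  | and F G h1 h2 => simp only [Form.nots, Form.size]; omega
  | or F G h1 h2 => simp only [Form.nots, Form.size]; omega

theorem fin {n : ℕ} (D : Circuit I n) (hD : D.fanins = []) (L : List (Wire I n))
    (h : List Bool → Bool) : ∃ (n' : ℕ) (C : Circuit I n') (out : Wire I n'),
      (∀ x, out.eval x (C.vals x) = h (L.map (fun a => a.eval x (D.vals x)))) ∧
      C.size = D.size ∧ C.fanins = [L.length] := by
  refine ⟨n + 1, D.any L.length 1 (fun b _ => h (List.ofFn b)) (fun i => L.get i),
    .gate (Fin.natAdd n 0), fun x => ?_, rfl, by rw [Circuit.fanins, hD]⟩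
  rw [Circuit.vals]
  change Fin.append _ _ (Fin.natAdd n 0) = _
  rw [Fin.append_right]
  congr 1
  apply List.ext_getElem
  · simp
  · intro i h1 h2
    simp

theorem t_DEC : S_DEC := by
  intro I F
  obtain ⟨n, D, f, s, he, hs, hr⟩ := main F 0 (.empty)
  have hD : D.fanins = [] := he.2.2
  have hsz : D.size = s := by rw [he.2.1, Circuit.size, Nat.zero_add]
  have hnl := nots_le F
  rcases hr with ⟨h0, α, h1⟩ | ⟨h0, α, β, gs, h, h1, h2⟩
  · obtain ⟨n', C, out, c1, c2, c3⟩ := fin D hD [α] (fun l => !(l.headD false))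
    refine ⟨n', C, out, fun x => ?_, ?_, ?_⟩
    · rw [c1, h1]
      simp
    · rw [c2, c3, hsz]
      simp only [List.length_singleton, List.sum_cons, List.sum_nil]
      omega
    · rw [c3]
      simp
  · obtain ⟨n', C, out, c1, c2, c3⟩ := fin D hD (α :: β :: gs) (fun l => match l with
      | a :: b :: r => !(a || (b && h r))
      | _ => false)
    refine ⟨n', C, out, fun x => ?_, ?_, ?_⟩
    · rw [c1, h2]
      simp only [List.map_cons]
    · rw [c2, c3, hsz]
      simp only [List.length_cons, List.sum_cons, List.sum_nil]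
      omega
    · rw [c3]
      simp only [List.length_cons, List.map_cons, List.map_nil, List.prod_cons, List.prod_nil]
      omega

end Pool.Agent.J4H72.MP.DecP
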